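import Pool.Agent.H211R2.MC.Rep

set_option autoImplicit false

namespace Pool.Agent.Results.MP_b00834_co.NoSevenDoubleCover

universe u v

open Set Matroid H211.MC

lemma noSeven_of_fano {α : Type u} {M : Matroid α} (hb : Representable (ZMod 2) M)
    (hF : ∀ X ⊆ M.E, ¬ Fano (M ／ X)) : NoSeven M := by
  intro X hX hs
  obtain ⟨V, _, _, u, hu⟩ := rep_contract hb hX
  exact hF X hX (seven_fano hu hs)

lemma noSeven_of_reg {α : Type u} {M : Matroid α} {K : Type v} [Field K] (h2 : (2 : K) ≠ 0)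
    (hb : Representable (ZMod 2) M) (hK : Representable K M) : NoSeven M := by
  refine noSeven_of_fano hb ?_
  intro X hX hF
  obtain ⟨V, _, _, u, hu⟩ := rep_contract hK hX
  exact no_fano h2 hu hF

lemma good_of_pair {α : Type u} {M : Matroid α} (hfin : M.Finite) (h2 : 2 ≤ M.E.ncard)
    (hconn : ∀ e ∈ M.E, ∀ f ∈ M.E, ∃ C : Set α, M.IsCircuit C ∧ e ∈ C ∧ f ∈ C) :
    Good M where
  fin := hfin
  ne := by
    rw [nonempty_iff_ne_empty]
    intro h
    rw [h] at h2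
    simp at h2
  ll := by
    intro e he
    obtain ⟨f, hf, hfe⟩ := exists_ne_of_one_lt_ncard (s := M.E) (by omega) e
    obtain ⟨C, hC, heC, hfC⟩ := hconn e he f hf
    have hI : M.Indep {e} := by
      apply (hC.sdiff_singleton_indep hfC).subset
      intro z hz
      rw [mem_singleton_iff.1 hz]
      exact ⟨heC, fun h => hfe h.symm⟩
    rw [rk_indep M hI, ncard_singleton]
  conn := Pair.conn hconn

/-- the weighted covering theorem, for the three classes -/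
theorem result {α : Type u} (M : Matroid α) (hfin : M.Finite) (h2 : 2 ≤ M.E.ncard)
    (hconn : ∀ e ∈ M.E, ∀ f ∈ M.E, ∃ C : Set α, M.IsCircuit C ∧ e ∈ C ∧ f ∈ C)
    (hclass : (∀ X ⊆ M.E, ¬ SevenPoint (M ／ X)) ∨
      (Representable (ZMod 2) M ∧ ∀ X ⊆ M.E, ¬ Fano (M ／ X)) ∨
      (Representable (ZMod 2) M ∧
        ∃ (K : Type v) (_ : Field K), (2 : K) ≠ 0 ∧ Representable K M)) :
    (∀ (w : α → ℕ) (k : ℕ), (∀ e ∈ M.E, w e ≤ k) →
      (∀ C : Set α, M.IsCircuit C → ∑ᶠ e ∈ C, w e ≤ 2 * k) →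
      ∃ D : Fin k → Set α, (∀ i, M.IsCocircuit (D i)) ∧
        ∀ e ∈ M.E, w e ≤ {i : Fin k | e ∈ D i}.ncard) ∧
    (∀ c : ℕ, (∃ C : Set α, M.IsCircuit C ∧ C.ncard = c) →
      (∀ C : Set α, M.IsCircuit C → C.ncard ≤ c) →
      ∃ D : Fin c → Set α, (∀ i, M.IsCocircuit (D i)) ∧
        ∀ e ∈ M.E, ∃ i j : Fin c, i ≠ j ∧ e ∈ D i ∧ e ∈ D j) := by
  have hG : Good M := good_of_pair hfin h2 hconn
  have hN : NoSeven M := by
    rcases hclass with h | ⟨hb, hF⟩ | ⟨hb, K, _, h2K, hK⟩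
    · exact h
    · exact noSeven_of_fano hb hF
    · exact noSeven_of_reg h2K hb hK
  have hmain : ∀ (w : α → ℕ) (k : ℕ), (∀ e ∈ M.E, w e ≤ k) →
      (∀ C : Set α, M.IsCircuit C → ∑ᶠ e ∈ C, w e ≤ 2 * k) →
      ∃ D : Fin k → Set α, (∀ i, M.IsCocircuit (D i)) ∧
        ∀ e ∈ M.E, w e ≤ {i : Fin k | e ∈ D i}.ncard :=
    fun w k hwk hC => cover _ M hG hN w k rfl hwk hC
  refine ⟨hmain, ?_⟩
  intro c _ hc
  have hfinE : M.E.Finite := hfin.ground_finite
  have hc2 : ∀ e ∈ M.E, 2 ≤ c := by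
    intro e he
    obtain ⟨f, hf, hfe⟩ := exists_ne_of_one_lt_ncard (s := M.E) (by omega) e
    obtain ⟨C, hC, heC, hfC⟩ := hconn e he f hf
    have h1 := hc C hC
    have h3 : 1 < C.ncard := by
      rw [one_lt_ncard (hfinE.subset hC.subset_ground)]
      exact ⟨e, heC, f, hfC, fun h => hfe h.symm⟩
    omega
  obtain ⟨D, hD, hcov⟩ := hmain (fun _ => 2) c hc2 (by
    intro C hC
    have hCf : C.Finite := hfinE.subset hC.subset_ground
    rw [finsum_mem_eq_finite_toFinset_sum _ hCf, Finset.sum_const, smul_eq_mul,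
      ← ncard_eq_toFinset_card C hCf, mul_comm]
    exact Nat.mul_le_mul_left 2 (hc C hC))
  refine ⟨D, hD, fun e he => ?_⟩
  have h4 : 1 < {i : Fin c | e ∈ D i}.ncard := hcov e he
  rw [one_lt_ncard (toFinite _)] at h4
  obtain ⟨i, hi, j, hj, hij⟩ := h4
  exact ⟨i, j, hij, hi, hj⟩

end Pool.Agent.Results.MP_b00834_co.NoSevenDoubleCover
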